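import Mathlib
import Pool.Agent.W24.CP.SR

open Filter Topology MeasureTheory

namespace Pool.Agent.Results.MP_fb29e9_nt.LinearArguments

open Classical in
/-- The error term of the Gauss circle problem at linear arguments, at integers and at primes. Let
`E(x) = (#{p ∈ ℤ² : |p|² ≤ x} - πx)/x^{1/4}` and `r(m) = #{p ∈ ℤ² : |p|² = m}`. There is a law `ν` on `ℝ`, with
a density that extends to an entire function and with full support, such that for all positive integers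
`a_1, …, a_k` and all integers `b_1, …, b_k ≥ 0` the vectors `e_n = (E(a_1 n + b_1), …, E(a_k n + b_k))` have
a joint limit law `μ` on `ℝ^k`, both for `n` running through the integers and for `n = p` running through the
primes. All its one-dimensional marginals are equal to `ν`, the means are `0`, and the covariances are
`∫ x_i x_j dμ = (1/(2π²)) ∑_h r(uh) r(vh) (uvh²)^{-3/4}` if `a_i = dv`, `a_j = du`, `(u, v) = 1`; in particular
the variance of `ν` is `(1/(2π²)) ∑_h r(h)² h^{-3/2}`, and (as `r(2h) = r(h)`) `E(n)`, `E(2n)` have the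
correlation coefficient `2^{-3/4}` in the limit. Moreover the values are orthogonal to everything multiplicative and additive:
for every continuous `f` of at most quadratic growth
`∑_{n ≤ N} g(n) e^{2πiαn} (f(e_n) - ∫ f dμ) = o(N)` uniformly over all real `α` and all multiplicative `g` with
`|g| ≤ 1`, and `∑_{p ≤ N} e^{2πiαp} (f(e_p) - ∫ f dμ) = o(π(N))` uniformly over all real `α` (so, with
`α = j/q`, also `∑ (f(e_p) - ∫ f dμ) = o(π(N))` over the primes `p ≤ N` in any residue class, uniformly in the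
class and the modulus). The same holds with the
indicator function of any set `D` with `μ(∂D) = 0` in place of `f`. -/
theorem result (E : ℝ → ℝ)
    (hE : ∀ x : ℝ, E x =
      ((Nat.card {p : ℤ × ℤ // (p.1 : ℝ) ^ 2 + (p.2 : ℝ) ^ 2 ≤ x} : ℝ) - Real.pi * x) / x ^ (1 / 4 : ℝ))
    (r : ℕ → ℕ) (hr : ∀ m : ℕ, r m = Nat.card {p : ℤ × ℤ // p.1 ^ 2 + p.2 ^ 2 = (m : ℤ)}) :
    ∃ (ν : ProbabilityMeasure ℝ) (G : ℂ → ℂ),
      Differentiable ℂ G ∧ (∀ x : ℝ, 0 ≤ (G x).re ∧ (G x).im = 0) ∧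
      (ν : Measure ℝ) = volume.withDensity (fun x : ℝ => ENNReal.ofReal (G x).re) ∧
      (∀ u v : ℝ, u < v → 0 < (ν : Measure ℝ) (Set.Ioo u v)) ∧
      ∀ (k : ℕ) (a b : Fin k → ℕ), (∀ i, 0 < a i) →
      ∃ μ : ProbabilityMeasure (Fin k → ℝ),
        Integrable (fun x : Fin k → ℝ => ∑ i, x i ^ 2) (μ : Measure (Fin k → ℝ)) ∧
        (∀ i, (μ : Measure (Fin k → ℝ)).map (fun x => x i) = (ν : Measure ℝ)) ∧
        (∀ i, ∫ x, x i ∂(μ : Measure (Fin k → ℝ)) = 0) ∧
        (∀ i j, ∀ u v d : ℕ, a i = d * v → a j = d * u → Nat.Coprime u v →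
          Summable (fun h : ℕ => (r (u * h) : ℝ) * r (v * h) / ((u : ℝ) * v * (h : ℝ) ^ 2) ^ (3 / 4 : ℝ)) ∧
          ∫ x, x i * x j ∂(μ : Measure (Fin k → ℝ)) =
            (∑' h : ℕ, (r (u * h) : ℝ) * r (v * h) / ((u : ℝ) * v * (h : ℝ) ^ 2) ^ (3 / 4 : ℝ))
              / (2 * Real.pi ^ 2)) ∧
        (∀ f : (Fin k → ℝ) → ℝ, Continuous f → (∃ C : ℝ, ∀ x, |f x| ≤ C * (1 + ∑ i, x i ^ 2)) →
          ∀ η : ℝ, 0 < η → ∃ N₀ : ℕ, ∀ N : ℕ, N₀ ≤ N → ∀ α : ℝ,
            (∀ g : ℕ → ℂ, (∀ n, ‖g n‖ ≤ 1) → (∀ m n : ℕ, Nat.Coprime m n → g (m * n) = g m * g n) →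
              ‖∑ n ∈ Finset.Icc 1 N, g n * Complex.exp (2 * Real.pi * Complex.I * (α * n)) *
                ((f (fun i => E ((a i : ℝ) * n + b i)) - ∫ x, f x ∂(μ : Measure (Fin k → ℝ)) : ℝ) : ℂ)‖
              ≤ η * N) ∧
            ‖∑ p ∈ (Finset.Icc 1 N).filter Nat.Prime, Complex.exp (2 * Real.pi * Complex.I * (α * p)) *
                ((f (fun i => E ((a i : ℝ) * p + b i)) - ∫ x, f x ∂(μ : Measure (Fin k → ℝ)) : ℝ) : ℂ)‖
              ≤ η * ((Finset.Icc 1 N).filter Nat.Prime).card) ∧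
        (∀ D : Set (Fin k → ℝ), (μ : Measure (Fin k → ℝ)) (frontier D) = 0 →
          ∀ η : ℝ, 0 < η → ∃ N₀ : ℕ, ∀ N : ℕ, N₀ ≤ N → ∀ α : ℝ,
            (∀ g : ℕ → ℂ, (∀ n, ‖g n‖ ≤ 1) → (∀ m n : ℕ, Nat.Coprime m n → g (m * n) = g m * g n) →
              ‖∑ n ∈ Finset.Icc 1 N, g n * Complex.exp (2 * Real.pi * Complex.I * (α * n)) *
                (((if (fun i => E ((a i : ℝ) * n + b i)) ∈ D then (1 : ℝ) else 0)
                  - (μ : Measure (Fin k → ℝ)).real D : ℝ) : ℂ)‖ ≤ η * N) ∧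
            ‖∑ p ∈ (Finset.Icc 1 N).filter Nat.Prime, Complex.exp (2 * Real.pi * Complex.I * (α * p)) *
                (((if (fun i => E ((a i : ℝ) * p + b i)) ∈ D then (1 : ℝ) else 0)
                  - (μ : Measure (Fin k → ℝ)).real D : ℝ) : ℂ)‖
              ≤ η * ((Finset.Icc 1 N).filter Nat.Prime).card) := by
  have hEc : E = Pool.Agent.H425R3.JL.Ec := funext hE
  subst hEc
  exact Pool.Agent.W24.CP.SR.circ_lin r hr

end Pool.Agent.Results.MP_fb29e9_nt.LinearArguments
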