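import Mathlib
import Pool.Agent.W24.MulOrth2

open Filter Topology MeasureTheory

namespace Pool.Agent.Results.MP_fb29e9_nt.Multiplicative

open Classical in
/-- The error term of the Gauss circle problem does not see the multiplicative structure of the
radius. Let `E(x) = (#{p ∈ ℤ² : |p|² ≤ x} - πx)/x^{1/4}`, and let `P_i(n) = a_i n² + b_i n + c_i`
(`i < k`) be quadratic polynomials with positive integers `a_i` and real `b_i`, `c_i`, positive at
`n = 1, 2, …` (for instance `P(n) = n²`, the radii being `n`). Write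
`e_n = (E(P_1(n)), …, E(P_k(n)))`. There is a probability measure `μ` on `ℝ^k`, whose one-dimensional
marginals have densities that extend to entire functions and charge every open interval, such that
for every `f` that is continuous of at most quadratic growth, or the indicator function of a set `A`
with `μ(∂A) = 0`:
(1) `∑_{n ≤ N} g(n) (f(e_n) - ∫ f dμ) = o(N)` uniformly over all multiplicative functions
`g : ℕ → ℂ` with `|g| ≤ 1` (`g = 1` gives the limit law along the integers, `g = μ` or `λ`, the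
Möbius or Liouville function, the orthogonality to them, and `g = exp(it(ω - loglog N)/√loglog N)`
the asymptotic independence of the number `ω` of prime factors);
(2) the same for every family of weights `|w_N(n)| ≤ 1` that is asymptotically uncorrelated with every
irrational rotation `e(nθ)`. -/
theorem result (E : ℝ → ℝ)
    (hE : ∀ x : ℝ, E x =
      ((Nat.card {p : ℤ × ℤ // (p.1 : ℝ) ^ 2 + (p.2 : ℝ) ^ 2 ≤ x} : ℝ) - Real.pi * x) / x ^ (1 / 4 : ℝ))
    (k : ℕ) (a : Fin k → ℕ) (b c : Fin k → ℝ) (ha : ∀ i, 0 < a i)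
    (hP : ∀ i, ∀ n : ℕ, 1 ≤ n → 0 < (a i : ℝ) * (n : ℝ) ^ 2 + b i * n + c i) :
    ∃ μ : ProbabilityMeasure (Fin k → ℝ),
      Integrable (fun x : Fin k → ℝ => ∑ i, x i ^ 2) (μ : Measure (Fin k → ℝ)) ∧
      (∀ i, ∃ g : ℂ → ℂ, Differentiable ℂ g ∧ (∀ x : ℝ, 0 ≤ (g x).re ∧ (g x).im = 0) ∧
        (μ : Measure (Fin k → ℝ)).map (fun x => x i) =
          volume.withDensity (fun x : ℝ => ENNReal.ofReal (g x).re) ∧
        ∀ u v : ℝ, u < v → 0 < (μ : Measure (Fin k → ℝ)) {x | u < x i ∧ x i < v}) ∧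
      ∀ f : (Fin k → ℝ) → ℝ,
        ((Continuous f ∧ ∃ C : ℝ, ∀ x, |f x| ≤ C * (1 + ∑ i, x i ^ 2)) ∨
          ∃ A : Set (Fin k → ℝ), (μ : Measure (Fin k → ℝ)) (frontier A) = 0 ∧ f = A.indicator 1) →
        (∀ ε : ℝ, 0 < ε → ∃ N₀ : ℕ, ∀ N : ℕ, N₀ ≤ N → ∀ g : ℕ → ℂ, (∀ n, ‖g n‖ ≤ 1) →
          (∀ m n : ℕ, Nat.Coprime m n → g (m * n) = g m * g n) →
          ‖∑ n ∈ Finset.Icc 1 N, g n *
            ((f (fun i => E ((a i : ℝ) * (n : ℝ) ^ 2 + b i * n + c i)) -
              ∫ x, f x ∂(μ : Measure (Fin k → ℝ)) : ℝ) : ℂ)‖ ≤ ε * N) ∧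
        (∀ w : ℕ → ℕ → ℂ, (∀ N n, ‖w N n‖ ≤ 1) →
          (∀ θ : ℝ, Irrational θ → Tendsto (fun N : ℕ =>
            (∑ n ∈ Finset.Icc 1 N, w N n * Complex.exp (2 * Real.pi * θ * n * Complex.I)) / N)
            atTop (𝓝 0)) →
          Tendsto (fun N : ℕ => (∑ n ∈ Finset.Icc 1 N, w N n *
            ((f (fun i => E ((a i : ℝ) * (n : ℝ) ^ 2 + b i * n + c i)) -
              ∫ x, f x ∂(μ : Measure (Fin k → ℝ)) : ℝ) : ℂ)) / N) atTop (𝓝 0)) := by
  have hEc : E = Pool.Agent.H425R3.JL.Ec := funext hE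
  subst hEc
  exact Pool.Agent.W24.MulOrth.mo_gen Pool.Agent.H425R3.JL.circ_data a b c ha hP

end Pool.Agent.Results.MP_fb29e9_nt.Multiplicative
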