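import Mathlib
import Pool.Agent.W24.BothShift

open Filter Topology

namespace Pool.Agent.Results.MP_fb29e9_nt.OmegaBoth

open Classical in
/-- Large values of both signs of the error term `N(x) - πx`, `N(x) = #{p ∈ ℤ² : |p|² ≤ x}`, of the
Gauss circle problem at integer radii, and along every quadratic sequence
`x = P(n) = an² + bn + c` with a positive integer `a` and real `b`, `c`. With an absolute constant
`c₀ > 0`, for every `ε > 0`, all large `N` and both signs `s = ±1`, at least `N^{1-ε}` of the integers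
`n` in the dyadic interval `N ≤ n < 2N` satisfy
`s (N(x) - πx) ≥ x^{1/4} exp(c₀ (log log N)^{1/4} (log log log N)^{-3/4})`, `x = P(n)`. -/
theorem result : ∃ c₀ : ℝ, 0 < c₀ ∧ ∀ (a : ℕ) (b c : ℝ), 0 < a → ∀ ε : ℝ, 0 < ε →
    ∃ N₀ : ℕ, ∀ N : ℕ, N₀ ≤ N → ∀ s : ℝ, (s = 1 ∨ s = -1) →
      (N : ℝ) ^ (1 - ε) ≤ (((Finset.Ico N (2 * N)).filter (fun n : ℕ =>
        0 < (a : ℝ) * (n : ℝ) ^ 2 + b * n + c ∧
        ((a : ℝ) * (n : ℝ) ^ 2 + b * n + c) ^ (1 / 4 : ℝ) *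
          Real.exp (c₀ * (Real.log (Real.log N)) ^ (1 / 4 : ℝ) *
            (Real.log (Real.log (Real.log N))) ^ (-(3 / 4) : ℝ)) ≤
          s * ((Nat.card {p : ℤ × ℤ // (p.1 : ℝ) ^ 2 + (p.2 : ℝ) ^ 2 ≤
              (a : ℝ) * (n : ℝ) ^ 2 + b * n + c} : ℝ)
            - Real.pi * ((a : ℝ) * (n : ℝ) ^ 2 + b * n + c)))).card : ℝ) := by
  refine ⟨Pool.Agent.W24.Both.c1 / 2, by have := Pool.Agent.W24.Both.c1_pos; positivity, ?_⟩
  intro a b c ha ε hε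
  obtain ⟨N0, hN0⟩ := Pool.Agent.W24.Both.both_all Pool.Agent.H425R3.JL.circ_data
    Pool.Agent.W24.Both.LBp_ag b c ha hε
  refine ⟨N0, fun N hN s hs => (hN0 N hN s hs).trans ?_⟩
  apply Nat.cast_le.mpr
  apply Finset.card_le_card
  intro n hn
  rw [Finset.mem_filter] at hn ⊢
  refine ⟨hn.1, hn.2.1, ?_⟩
  have h1 := hn.2.2
  have hx : 0 < ((a : ℝ) * (n : ℝ) ^ 2 + b * n + c) ^ (1 / 4 : ℝ) := Real.rpow_pos_of_pos hn.2.1 _
  unfold Pool.Agent.W24.Both.sz Pool.Agent.H425R3.JL.Ec at h1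
  rw [← mul_div_assoc, le_div_iff₀ hx] at h1
  rw [mul_comm]
  exact h1

end Pool.Agent.Results.MP_fb29e9_nt.OmegaBoth
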