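import Mathlib
import Pool.Agent.W24.CP.Two

namespace Pool.Agent.Results.MP_fb29e9_nt.PrimesMobius

/-- The error term of the Gauss circle problem at the primes and against the Möbius function: a power
saving. Let `P(n) = #{(x, y) ∈ ℤ² : x² + y² ≤ n} - π n` for `n = 1, 2, 3, …` (the circle of radius `√n`).
There are `δ > 0` and `C` such that for every real `α` and every `N ≥ 1`
`|∑_{n ≤ N} μ(n) e^{2πiαn} P(n)| ≤ C N^{5/4 - δ}` and `|∑_{n ≤ N} Λ(n) e^{2πiαn} P(n)| ≤ C N^{5/4 - δ}`.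
Since `∑_{n ≤ N} P(n)²` is of exact order `N^{3/2}`, the size to beat in both sums is `N^{5/4}`. The bounds are
uniform in `α`, so (averaging over `α = b/q`) they hold with the same `C` and `δ` for the sums over any
residue class to any modulus: for instance the average of `P(p)` over the primes `p ≤ N`, `p ≡ a (mod q)`,
weighted with `log p`. -/
theorem result :
    ∃ δ : ℝ, 0 < δ ∧ ∃ C : ℝ, ∀ (α : ℝ) (N : ℕ), 1 ≤ N →
      ‖∑ n ∈ Finset.Icc 1 N, ((ArithmeticFunction.moebius n : ℤ) : ℂ) *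
          Complex.exp (2 * Real.pi * Complex.I * (α * n)) *
          (((Nat.card {p : ℤ × ℤ // p.1 ^ 2 + p.2 ^ 2 ≤ (n : ℤ)} : ℝ) - Real.pi * n : ℝ) : ℂ)‖
        ≤ C * (N : ℝ) ^ (5 / 4 - δ) ∧
      ‖∑ n ∈ Finset.Icc 1 N, ((ArithmeticFunction.vonMangoldt n : ℝ) : ℂ) *
          Complex.exp (2 * Real.pi * Complex.I * (α * n)) *
          (((Nat.card {p : ℤ × ℤ // p.1 ^ 2 + p.2 ^ 2 ≤ (n : ℤ)} : ℝ) - Real.pi * n : ℝ) : ℂ)‖
        ≤ C * (N : ℝ) ^ (5 / 4 - δ) :=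
  Pool.Agent.W24.CP.circ_save

end Pool.Agent.Results.MP_fb29e9_nt.PrimesMobius
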